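import Pool.Agent.Work.MP_ffcd14_ag.Defs

/-! # Uniruled subvarieties -/

open MvPolynomial

namespace Pool.Agent.Work.MP_ffcd14_ag

universe u

variable {k : Type u} [Field k] {P : Amb}

/-- The subvariety `A` of dimension `d` is uniruled: there is a dominant rational map
`Y × ℙ¹ ⇢ A` with `dim Y + 1 = d`.  In terms of the function field `F` of `Y`: a point `v` with
coordinates in `F(t)` at which exactly the forms vanishing on `A` vanish. -/
def UniS (A : Set (P.Pt k)) (d : ℕ) : Prop :=
  ∃ (F : Type u) (_ : Field F) (_ : Algebra k F) (v : P.V → RatFunc F),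
    Algebra.trdeg k F + 1 = d ∧ (∀ i, ∃ s, v ⟨i, s⟩ ≠ 0) ∧
      ∀ f a, IsForm f a → (aeval v f = 0 ↔ ∀ x ∈ A, ev x f = 0)

end Pool.Agent.Work.MP_ffcd14_ag
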