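import Pool.Agent.Work.MP_ffcd14_ag.Uni.Z6

/-! # A class of codimension two defines a bounded functional on a subvariety -/

open MvPolynomial Filter Topology

namespace Pool.Agent.Work.MP_ffcd14_ag.Uni

universe u v w

section
variable {k L : Type u} [Field k] [Field L] [Algebra k L]
  {K : Type v} [Field K] [CharZero K] {P : Amb} {C : NT.{u, v, w} k K}
  [IsAlgClosed k] [Fg k L] (hC : C.Chow)
include hC

theorem bc_boundG {X : Var k P} (hX : IsIrreducible X.pts) (h4 : td k L = 4)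
    {x : P.V → L} (hx : OnS X.pts x) (rx : rn k (rat x) = 4) {a : P.ι →₀ ℕ} (ha : ∀ i, 0 < a i) {A : FD k L}
    (hA : 1 ≤ rn k (rt A)) {Ξ : DD k L}
    (hΞ : ∀ ν : Dv k L, ν.vq Ξ ≠ 0 → rn k (rat (rpt ν x) ∪ rt (ν.Res A)) ≤ 2)
    {J : Type} [Fintype J] {D₁ : J → N k L} (hD : ∀ j, D₁ j ∈ N1 k L) {y : EE C X}
    (hy : y ∈ AA C X 2) : ∃ c : ℚ, 0 ≤ c ∧ ∀ (lam : J → ℚ) (Y : DD k L),
      (∀ ν : Dv k L, ν.vq Ξ = 0 → ν.vq Y = 0) →
      II C X x y (hh A * (∑ j, lam j • D₁ j + cl Y)) ^ 2 ≤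
        c * nrm (JJ C L) (hh (sys k x a) * hh A) (hh (sys k x a)) (∑ j, lam j • D₁ j + cl Y) := by
  have nx : NZ x := hx.nz
  set l := hh (sys k x a) with hl
  have rl : rn k (rt (sys k x a)) = td k L :=
    le_antisymm (rn_le_td _) (h4 ▸ rx ▸ rn_mono (BC_rat nx ha))
  have pos : 0 < JJ C L (l * hh A * l * l) := by
    have := JJ_pos2 hC (i := 1) (l := 3) hA rl h4.symm
    rwa [show hh A ^ 1 * hh (sys k x a) ^ 3 = l * hh A * l * l by ring] at this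
  have rcs : ∀ V : FD k L, RCS (JJ C L) (N1 k L) (hh V * hh A) := fun V => by
    simpa using JJ_rcs hC [hh V, hh A] (by simp [Nef.hh]) h4.symm
  have mem1 : ∀ lam : J → ℚ, ∑ j, lam j • D₁ j ∈ N1 k L := fun lam =>
    sum_mem fun j _ => Submodule.smul_mem _ _ (hD j)
  -- the first model
  obtain ⟨m₁, u₁, nu₁, eu₁⟩ := exists_coord A
  have n₁ := nx.elim nu₁
  obtain ⟨Z₁, hZ₁⟩ := exists_isGen (k := k) n₁
  have ra : ∀ ν : Dv k L, rat (rpt ν u₁) ⊆ rt (ν.Res A) := fun ν =>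
    rat_subset (nu₁.rpt ν) fun _ => (blk_rpt nu₁ ν _).dvd.trans (congrArg ν.Res eu₁).dvd
  obtain ⟨𝒴, y1, y2, y3⟩ := supp_dv hZ₁ Ξ fun ν hν => by
    have h1 := rn_mono (k := k) (Set.union_subset_union_right (rat (rpt ν x)) (ra ν))
    have := hΞ ν hν
    rw [rpt_elim, rat_elim]
    omega
  have s₁ := (onS_iff hZ₁ (X.ext _).closed).1 (hx.ext nu₁)
  -- the second model
  obtain ⟨Q, u₂, nu₂, mA', mD'⟩ := BC_model A hD
  have n₂ := nx.elim nu₂
  obtain ⟨Z₂, hZ₂⟩ := exists_isGen (k := k) n₂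
  have o₂ := hx.ext nu₂
  have s₂ := (onS_iff hZ₂ (X.ext _).closed).1 o₂
  have d₂ : sdim Z₂ = td k L := by
    rw [← rn_rat hZ₂, rat_elim]
    exact le_antisymm (rn_le_td _) (h4 ▸ rx ▸ rn_mono Set.subset_union_left)
  obtain ⟨n, -, hn⟩ := II_model hC (X.ext Q) hZ₂ d₂
  set w := Amb.elim x u₂ with hw
  have mA : hh A ∈ BCalg k w := BC_le n₂ (Crd.inr k P Q) mA'
  have mq : ∀ lam : J → ℚ, ∑ j, lam j • D₁ j ∈ BCalg k w := fun lam =>
    sum_mem fun j _ => Subalgebra.smul_mem _ (BC_le n₂ (Crd.inr k P Q) (mD' j)) _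
  choose p ep using fun lam => BC_poly (mul_mem mA (mq lam))
  have ml : l ∈ BCalg k w := BC_le n₂ (Crd.inl k P Q) (BC_sys x a)
  -- the space of bounded functionals
  let T := {t : (J → ℚ) × DD k L // ∀ ν : Dv k L, ν.vq Ξ = 0 → ν.vq t.2 = 0}
  let DT : T → N k L := fun t => ∑ j, t.1.1 j • D₁ j + cl t.1.2
  have mT : ∀ t, DT t ∈ N1 k L := fun t => add_mem (mem1 _) (cl_mem _)
  have hn0 : ∀ t, 0 ≤ nrm (JJ C L) (l * hh A) l (DT t) := fun t =>
    BC_nrm (rcs _) (hh_mem _) pos (mT t)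
  let φ : EE C X →ₗ[ℚ] T → ℚ := LinearMap.pi fun t => (II C X x).flip (hh A * DT t)
  suffices h : φ y ∈ BCbd _ hn0 by
    obtain ⟨c, hc, h⟩ := h
    exact ⟨c, hc, fun lam Y hY => h ⟨(lam, Y), hY⟩⟩
  refine num2_CS_map X φ _ ?_ (BC_genpos hC.cyc hX (Prj.one X _) (Prj.one X Q) y1
    (fun Y hY => num2_sub (y2 Y hY).1 s₁) s₂ hy)
  rintro S hS ⟨dS, g1, g2⟩
  let ψ : EE C (X.ext Q) →ₗ[ℚ] T → ℚ := LinearMap.pi fun t =>
    (n : ℚ) • tau C _ ∘ₗ LinearMap.mulRight ℚ (aeval (MP_ffcd14_ag.hy C (X.ext Q)) (p t.1.1))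
  have e1 : φ (cy C X S) = ψ (cy C _ Z₂ * pl C (Prj.one X Q) (cy C X S)) := by
    funext t
    have a1 : II C X x (cy C X S) (cl t.1.2 * hh A) = 0 := by
      refine II_cyc_zero hC X nx _ fun ν hν => II_van1 hC X (nx.rpt ν) (s := rt (ν.Res A)) ?_ _ ?_
      · have := hΞ ν (mt (t.2 ν) hν)
        have := ν.dim
        omega
      · rw [ν.rs_hh]
        exact Algebra.subset_adjoin (Submodule.subset_span ⟨_, subset_rfl, rfl⟩)
    have a2 := II_prj hC (Prj.one X Q) o₂ (cy C X S) (hh A * ∑ j, t.1.1 j • D₁ j)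
    rw [← ep, hn, ep, nm_apply, ← mul_assoc] at a2
    change II C X x (cy C X S) (hh A * DT t) = _
    rw [mul_add, map_add, mul_comm (hh A) (cl _), a1, add_zero]
    exact a2
  rw [e1]
  have gp : ∀ V ≤ Z₂, (Crd.inl k P Q).img V ≤ S → sdim V ≤ 2 := fun V h1 h2 => by
    have := g2 V h1 h2
    omega
  refine num2_CS_map _ ψ _ ?_ (n_meet hC.cyc (Prj.one X Q) s₂ hS fun U h1 h2 => by
    have := gp U h1 h2
    omega)
  rintro U - ⟨u1, u2, u3⟩
  -- the divisor of the blow-up of `S`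
  obtain ⟨κ, _, g, a', hg⟩ := exists_cuts (S : Set (P.Pt k))
  have h0 : ∃ s, aeval x (g s) ≠ 0 := by
    by_contra h
    have h1 : (Crd.inl k P Q).img Z₂ ≤ S := fun z hz => hg.mem S.isClosed fun s =>
      (((Crd.inl k P Q).isGen_img hZ₂).iff _ _ (hg.form s)).1 (not_not.1 (not_exists.1 h s)) z hz
    have := gp Z₂ le_rfl h1
    omega
  obtain ⟨z, hz, e, he⟩ := BC_key hC (X.ext Q) h4 hZ₂ s₂ d₂ (Crd.inl k P Q) hg h0 u1 u2
    (by omega) gp
  change ∀ p, _ = e * JJ C L (z * (cl (BCdiv x g a') * _)) at he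
  set E := BCdiv x g a' with hE
  have i1 : ∀ r ∈ BCalg k w, JJ C L (cl E * r) = 0 := fun r hr =>
    JJ_cyc_zero hC fun ν hν => BC_van hC (w := rpt ν w) (by
      have := BC_rank (n₂.rpt ν) (Crd.inl k P Q) (hZ₂.onS.rpt ν)
        (by rw [← rpt_comp n₂]; exact BC_div_supp nx hg h0 hν) gp
      have := ν.dim
      omega) (BC_rs n₂ ν hr)
  have i2 : ∀ (t : T) r, JJ C L (cl E * hh A * cl t.1.2 * r) = 0 := fun t r => by
    refine BC_disj hC (BC_div_nonneg nx hg h0) (fun ν h1 h2 => ?_) r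
    obtain ⟨Y, hY, h3⟩ := y3 ν (mt (t.2 ν) h2)
    have h5 := BC_rank (n₁.rpt ν) (Crd.inl k P _) h3
      (by rw [← rpt_comp n₁]; exact BC_div_supp nx hg h0 h1) (m := 0) fun V h6 h7 => by
        have := g1 Y hY V h6 h7
        have := (y2 Y hY).2
        omega
    have h6 := rn_le_of_mem (rt_blk (k := k) (rpt ν (Amb.elim x u₁)) (Sum.inr ()))
    rw [(blk_rpt n₁ ν (Sum.inr ())).trans (congrArg ν.Res eu₁)] at h6
    omega
  obtain ⟨M, hM⟩ : ∃ M : ℕ, a' ≤ M • a := ⟨a'.sum fun _ n => n, fun i => by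
    have h1 : a' i ≤ a'.sum fun _ n => n := Finsupp.le_degree i a'
    have := ha i
    rw [Finsupp.smul_apply, smul_eq_mul]
    nlinarith⟩
  obtain ⟨c, hc, hb⟩ := BC_alg (ν := JJ C L) (M := (M + 1 : ℕ)) (η := cl E * hh A)
    (by positivity) (rcs (sys k x a))
    (rcs (sys k x a * (FD.sp (fun s => aeval x (g s)) * sys k x (M • a - a')))) (hh_mem _) hz pos
    (by
      have h1 := congrArg hh (BC_sys_add (k := k) x (M • a - a') a')
      rw [tsub_add_cancel_of_le hM, BC_sys_smul, hh_pow, hh_mul] at h1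
      rw [hh_mul, hh_mul, hE, BCdiv, map_sub, cl_mD, cl_mD, Nat.cast_smul_eq_nsmul, succ_nsmul,
        ← smul_mul_assoc, h1]
      ring)
    (by rw [mul_assoc, mul_assoc]; exact i1 _ (mul_mem mA (mul_mem ml ml)))
  refine ⟨(n * e) ^ 2 * c, by positivity, fun t => ?_⟩
  have a1 : ∀ r, JJ C L (cl E * hh A * r * DT t) =
      JJ C L (cl E * (hh A * r * ∑ j, t.1.1 j • D₁ j)) := fun r => by
    rw [show cl E * hh A * r * DT t = cl E * (hh A * r * ∑ j, t.1.1 j • D₁ j) +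
      cl E * hh A * cl t.1.2 * r by simp only [DT]; ring, map_add, i2, add_zero]
  have a2 := hb (DT t) (mT t) (by rw [a1]; exact i1 _ (mul_mem (mul_mem mA ml) (mq _))) (by
    rw [a1, show cl E * (hh A * DT t * ∑ j, t.1.1 j • D₁ j) =
      cl E * hh A * (∑ j, t.1.1 j • D₁ j) * DT t by ring, a1]
    exact i1 _ (mul_mem (mul_mem mA (mq _)) (mq _)))
  have a3 : ψ (cy C _ U) t = n * e * JJ C L (cl E * hh A * z * DT t) := by
    rw [a1, show cl E * (hh A * z * ∑ j, t.1.1 j • D₁ j) =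
      z * (cl E * (hh A * ∑ j, t.1.1 j • D₁ j)) by ring, ← ep, mul_assoc, ← he]
    rfl
  rw [a3, mul_pow, mul_assoc _ c]
  exact mul_le_mul_of_nonneg_left a2 (sq_nonneg _)

theorem bc_fdG {X : Var k P} (hX : IsIrreducible X.pts) (h4 : td k L = 4)
    {x : P.V → L} (hx : OnS X.pts x) (rx : rn k (rat x) = 4) {a : P.ι →₀ ℕ} (ha : ∀ i, 0 < a i) {A : FD k L}
    (hA : 1 ≤ rn k (rt A)) {Ξ : DD k L}
    (hΞ : ∀ ν : Dv k L, ν.vq Ξ ≠ 0 → rn k (rat (rpt ν x) ∪ rt (ν.Res A)) ≤ 2)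
    {M : Type*} [AddCommGroup M] [Module ℚ M] [FiniteDimensional ℚ M] (D₁ : M →ₗ[ℚ] DD k L)
    {y : EE C X} (hy : y ∈ AA C X 2) : ∃ c : ℚ, 0 ≤ c ∧ ∀ (p : M) (D : DD k L),
      (∀ ν : Dv k L, ν.vq Ξ = 0 → ν.vq D = ν.vq (D₁ p)) → II C X x y (hh A * cl D) ^ 2 ≤
        c * nrm (JJ C L) (hh (sys k x a) * hh A) (hh (sys k x a)) (cl D) := by
  let b := Module.finBasis ℚ M
  obtain ⟨c, c0, h⟩ := bc_boundG hC hX h4 hx rx ha hA hΞ (fun j => cl_mem (D₁ (b j))) hy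
  refine ⟨c, c0, fun p D hD => ?_⟩
  have := h (b.repr p) (D - D₁ p) fun ν h0 => by rw [map_sub, hD ν h0, sub_self]
  simp only [← map_smul, ← map_sum, b.sum_repr] at this
  rwa [← map_add, add_sub_cancel] at this

end

end Pool.Agent.Work.MP_ffcd14_ag.Uni
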