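import Pool.Agent.Work.MP_ffcd14_ag.Sub.U1

/-! # Semi-positivity of primitive classes on a tree of rational curves -/

open MvPolynomial Filter Topology

namespace Pool.Agent.Work.MP_ffcd14_ag.Uni

universe u v w

variable {k F L : Type u} [Field k] [Field F] [Field L] [Algebra k F] [Algebra k L]
  {K : Type v} [Field K] [CharZero K] {C : NT.{u, v, w} k K} {P : Amb}
  [IsAlgClosed k] [Fg k F] [Fg k L] (hC : C.Chow) (h3 : td k F = 3)
  {ι : F →ₐ[k] L} {t : L} (ht : Simp ι t) {X : Var k P} (hX : IsIrreducible X.pts)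
  {x : P.V → L} (hx : OnS X.pts x) (hd : rn k (rat x) = 4) {a : P.ι →₀ ℕ} (ha : ∀ i, 0 < a i)
  {τ : Tree ι t (sys k x a)} {A : FD k F} {Vη : FD k L} {Λ : τ.Cl → N k F}
  {m : τ.Cl → τ.Cl → ℚ} (M : τ.Mod A Vη Λ m)

namespace Tree

omit [Fg k F] in
include hX hx hd ha in
theorem rn_sysG : 4 ≤ rn k (rt (sys k x a)) := by
  rw [← hd]
  exact rn_mono (rat_subset hx.nz fun i => blk_dvd_sys x (ha i))

omit [IsAlgClosed k] [Fg k F] [Fg k L] in
include hx ha M in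
theorem rat_resG (ν : Dv k L) : rat (rpt ν x) ⊆ rt (ν.Res Vη) :=
  rat_subset (NZ.rpt hx.nz ν) fun i => by
    rw [blk_rpt hx.nz]
    exact map_dvd _ ((blk_dvd_sys x (ha i)).trans M.dvd)

include hC hx ha M in
theorem rn_excG (h3 : td k F = 3) {Ξ : DD k F} (hΞ : Ξ ∈ XC A) (ν : Dv k L)
    (h : ν.vq (pD ι Ξ) ≠ 0) : rn k (rat (rpt ν x) ∪ rt (ν.Res (FD.map ι A))) ≤ 2 :=
  (rn_mono (Set.union_subset ((rat_resG hx ha M ν).trans Set.subset_union_right)
    Set.subset_union_left)).trans (rn_exc₀ hC M h3 hΞ ν h)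

include hC h3 ht hX hx hd ha M in
theorem pos_llG : 0 < JJ C L (hh (sys k x a) * hh (sys k x a) * pb ι (hh A) * pb ι (hh A)) := by
  have h4 : td k L = 4 := by rw [ht.td_eq, h3]
  have := JJ_pos2 hC (U := FD.map ι A) (W := sys k x a) (i := 2) (l := 2)
    (by rw [rt_map, rn_image, rn_gen M.gen, h3]; omega)
    (le_antisymm (rn_le_td _) (h4 ▸ rn_sysG hX hx hd ha)) h4.symm
  rwa [← pb_hh, mul_comm, sq, sq, ← mul_assoc] at this

include hC h3 ht hX hx hd ha M in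
/-- The functional `D ↦ y l D` is bounded. -/
theorem e_boundG {Ξ : DD k F} (hΞ : Ξ ∈ XC A) {R : Type*} [AddCommGroup R] [Module ℚ R]
    [FiniteDimensional ℚ R] (D₁ : R →ₗ[ℚ] DD k L) {y : EE C X} (hy : y ∈ AA C X 2) :
    ∃ c : ℚ, 0 ≤ c ∧ ∀ (p : R) (D : DD k L), (∀ ν : Dv k L, ν.vq (pD ι Ξ) = 0 →
      ν.vq D = ν.vq (D₁ p)) → II C X x y (hh (sys k x a) * cl (D₁ p)) ^ 2 ≤
        c * nrm (JJ C L) (hh (sys k x a) * hh (sys k x a)) (pb ι (hh A)) (cl D) := by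
  have h4 : td k L = 4 := by rw [ht.td_eq, h3]
  have r4 := rn_sysG hX hx hd ha
  have h2 : ∀ ν : Dv k L, ν.vq (pD ι Ξ) ≠ 0 →
      rn k (rat (rpt ν x) ∪ rt (ν.Res (sys k x a))) ≤ 2 := fun ν h =>
    (rn_mono (Set.union_subset ((rat_resG hx ha M ν).trans Set.subset_union_right)
      ((rt_dvd (map_dvd _ M.dvd)).trans Set.subset_union_right))).trans (rn_exc₀ hC M h3 hΞ ν h)
  obtain ⟨c, c0, hc⟩ := bc_fdG hC hX h4 hx hd ha (A := sys k x a) (by omega) h2 D₁ hy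
  have rc := rcs_ll hC h3 ht (x := x) (a := a)
  have pos := pos_llG hC h3 ht hX hx hd ha M
  have p4 : 0 < JJ C L (hh (sys k x a) * hh (sys k x a) * hh (sys k x a) * hh (sys k x a)) := by
    have := JJ_pos1 hC (le_antisymm (rn_le_td _) (h4 ▸ r4))
    rwa [h4, pow_succ, pow_succ, sq] at this
  have hA := pb_N1 ι (hh_mem A)
  have n0 := fun {z} (hz : z ∈ N1 k L) => (abs_nonneg _).trans (nrm_nonneg rc hA pos hz)
  refine ⟨c * (2 * nrm (JJ C L) (hh (sys k x a) * hh (sys k x a)) (pb ι (hh A)) (hh (sys k x a)) /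
    JJ C L (hh (sys k x a) * hh (sys k x a) * hh (sys k x a) * hh (sys k x a)) + 1),
    mul_nonneg c0 (add_nonneg (div_nonneg (mul_nonneg two_pos.le (n0 (hh_mem _))) p4.le) one_pos.le),
    fun p D hD => ?_⟩
  have e : II C X x y (hh (sys k x a) * cl (D₁ p)) = II C X x y (hh (sys k x a) * cl D) := by
    rw [← sub_eq_zero, ← map_sub, ← mul_sub, ← map_sub, mul_comm]
    refine II_cyc_zero hC X hx.nz y fun ν h => II_van1 hC X (NZ.rpt hx.nz ν)
      (s := rt (ν.Res (sys k x a))) ?_ y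
      (Algebra.subset_adjoin (Dat_le_NS subset_rfl (dat_rs ν (hh_dat dvd_rfl))))
    have := h2 ν fun h0 => h (by rw [map_sub, hD ν h0, sub_self])
    have := ν.dim
    omega
  rw [e, mul_assoc]
  refine (hc p D hD).trans (mul_le_mul_of_nonneg_left ?_ c0)
  have b1 := nrm_cs rc hA pos (hh_mem (sys k x a)) (cl_mem D)
  have b2 := (neg_le_abs _).trans (nrm_nonneg rc hA pos (cl_mem D))
  rw [nrm, add_mul, one_mul, div_mul_eq_mul_div, mul_assoc 2, sub_eq_add_neg]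
  exact add_le_add (div_le_div_of_nonneg_right (by linarith) p4.le) b2

variable {y : EE C X} (hy : y ∈ AA C X 2) {v : DD k F} {W : τ.Cl → ∀ c : Dv k F, N k c.κ}
  (St : Star C τ A X x y v W)
  {G : ℕ → τ.Cl → Dv k F → DD k F} (hG : ∀ n, τ.Lv A (G n)) {Lt : τ.Cl → DD k F}
  (hL : ∀ S, cl (Lt S) = Λ S) {B : Submodule ℚ (ℕ → DD k F)} (hB : Cn τ A G Lt B) {Ξ : DD k F}
  (hΞ : Ξ ∈ XC A) (hg : B ≤ GS hC h3 M.gen Ξ) {MM : Submodule ℚ τ.Par} (hM : ∀ p ∈ MM, p.2.1 ∈ B)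

include hC h3 ht hX hx hd ha M hB hΞ hg hM in
/-- The upper bound for `l² D² - 2 y l D`. -/
theorem z_boundG [FiniteDimensional ℚ MM] (hy : y ∈ AA C X 2) : ∃ b : ℚ, ∀ (p : MM) (n : ℕ),
    JJ C L (hh (sys k x a) * hh (sys k x a) * cl (τ.dvL A G n p) * cl (τ.dvL A G n p)) ≤
      b + 2 * JJ C L (hh (sys k x a) * hh (sys k x a) * pb ι (hh A) * cl (τ.dvL A G n p)) ^ 2 /
        JJ C L (hh (sys k x a) * hh (sys k x a) * pb ι (hh A) * pb ι (hh A)) +
      2 * II C X x y (hh (sys k x a) * cl (τ.dvL A G 0 p)) := by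
  obtain ⟨c, c0, hc⟩ := e_boundG hC h3 ht hX hx hd ha M hΞ (τ.dvL A G 0 ∘ₗ MM.subtype) hy
  refine ⟨c, fun p n => ?_⟩
  have h := hc p _ (dv_off hC h3 M hB hg (hM _ p.2) n)
  have n0 := (abs_nonneg _).trans (nrm_nonneg (rcs_ll hC h3 ht) (pb_N1 ι (hh_mem A))
    (pos_llG hC h3 ht hX hx hd ha M) (cl_mem (τ.dvL A G n p)))
  have := abs_le_of_sq_le_sq' (a := 2 * II C X x y (hh (sys k x a) * cl (τ.dvL A G 0 p)))
    (b := c + nrm (JJ C L) (hh (sys k x a) * hh (sys k x a)) (pb ι (hh A)) (cl (τ.dvL A G n p)))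
    (by
      change II C X x y (hh (sys k x a) * cl (τ.dvL A G 0 p)) ^ 2 ≤ _ at h
      nlinarith [sq_nonneg (c - nrm (JJ C L) (hh (sys k x a) * hh (sys k x a)) (pb ι (hh A))
        (cl (τ.dvL A G n p)))]) (add_nonneg c0 n0)
  rw [nrm] at this
  linarith [this.1]

include hC h3 ht hX hx hd ha M hy St hG hL hB hΞ hg hM

/-- Approximate solutions of the orthogonality conditions. -/
theorem exists_appG [FiniteDimensional ℚ MM] {l : MM}
    (hl : ∀ n, cl (τ.dvL A G n l) = hh (sys k x a)) :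
    ∃ (q : MM →ₗ[ℚ] MM →ₗ[ℚ] ℝ) (s : ℕ → MM), (∀ p p' : MM, Tendsto (fun n => ((JJ C L
      (hh (sys k x a) * pb ι (hh A) * cl (τ.dvL A G n p) * cl (τ.dvL A G n p')) : ℚ) : ℝ)) atTop
        (𝓝 (q p p'))) ∧ Cv s ∧ ∀ p : MM, Tendsto (fun i => q (s i) p) atTop
          (𝓝 (II C X x y (pb ι (hh A) * cl (τ.dvL A G 0 p)))) := by
  have h4 : td k L = 4 := by rw [ht.td_eq, h3]
  let D : ℕ → MM →ₗ[ℚ] N k L := fun n => cl ∘ₗ τ.dvL A G n ∘ₗ MM.subtype
  obtain ⟨q, hq⟩ := exists_lim₂ (fun n => ((LinearMap.mul ℚ (N k L)).compl₁₂ (D n) (D n)).compr₂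
    (JJ C L ∘ₗ LinearMap.mulLeft ℚ (hh (sys k x a) * pb ι (hh A)))) fun p p' => ⟨_,
      (lim_q hC h3 ht M hG hL hB (fun _ h => (hg h).1) (hM _ p.2) (hM _ p'.2)).congr fun n => by
        rw [mul_assoc]
        rfl⟩
  replace hq : ∀ p p' : MM, Tendsto (fun n => ((JJ C L (hh (sys k x a) * pb ι (hh A) *
      cl (τ.dvL A G n p) * cl (τ.dvL A G n p')) : ℚ) : ℝ)) atTop (𝓝 (q p p')) := fun p p' =>
    (hq p p').congr fun n => by
      rw [mul_assoc _ (cl _)]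
      rfl
  obtain ⟨c, -, hc⟩ := bc_fdG hC hX h4 hx hd ha (A := FD.map ι A)
    (by rw [rt_map, rn_image, rn_gen M.gen, h3]; omega) (rn_excG hC hx ha M h3 hΞ)
    (τ.dvL A G 0 ∘ₗ MM.subtype) hy
  obtain ⟨s, h1, h2⟩ := exists_sol q (fun p p' => tendsto_nhds_unique (hq p p')
    (by simpa only [mul_right_comm _ (cl (τ.dvL A G _ p'))] using hq p' p))
    (Algebra.linearMap ℚ ℝ ∘ₗ II C X x y ∘ₗ LinearMap.mulLeft ℚ (pb ι (hh A)) ∘ₗ D 0) l c
    (JJ C L (hh (sys k x a) * pb ι (hh A) * hh (sys k x a) * hh (sys k x a)) : ℚ) fun p => by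
      refine ge_of_tendsto' (((((hq p l).pow 2).const_mul 2).div_const _).sub (hq p p)
        |>.const_mul _) fun n => ?_
      have e : (II C X x y (pb ι (hh A) * cl (τ.dvL A G 0 p)) : ℝ) =
          II C X x y (pb ι (hh A) * cl (τ.dvL A G n p)) := by
        have := QQ_exc hC h3 M.gen (hh_dat dvd_rfl) v ((hg (hM _ p.2)).1.exc n)
        rw [map_sub, sub_eq_zero] at this
        rw [y_A hC h3 M St hG, y_A hC h3 M St hG, this]
      have b := hc p (τ.dvL A G n p) (dv_off hC h3 M hB hg (hM _ p.2) n)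
      rw [nrm, ← pb_hh, mul_right_comm _ _ (cl _)] at b
      change (II C X x y (pb ι (hh A) * cl (τ.dvL A G 0 p)) : ℝ) ^ 2 ≤ _
      rw [e, hl]
      exact_mod_cast b
  exact ⟨q, s, hq, h1, h2⟩

theorem coreG [FiniteDimensional ℚ MM] {l : MM} (hl : ∀ n, cl (τ.dvL A G n l) = hh (sys k x a))
    (hv : ∃ b ∈ B, QQ C A (hh A) v = QQ C A (hh A) (b 0)) (hA : (fun _ => -mD A) ∈ B) (hb : ∀ b ∈ B, (0, b, 0, 0) ∈ MM)
    (he : ∀ S, ∀ c ∈ prs A (τ.dl S), ∃ e, (0, 0, 0, e) ∈ MM ∧ e S c = 1 ∧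
      ∀ S' c', ¬ (S' = S ∧ c' = c) → e S' c' = 0) {β : ℚ} (hβ : ∀ (p : MM) (n : ℕ),
    JJ C L (hh (sys k x a) * hh (sys k x a) * cl (τ.dvL A G n p) * cl (τ.dvL A G n p)) ≤
      β + 2 * JJ C L (hh (sys k x a) * hh (sys k x a) * pb ι (hh A) * cl (τ.dvL A G n p)) ^ 2 /
        JJ C L (hh (sys k x a) * hh (sys k x a) * pb ι (hh A) * pb ι (hh A)) +
      2 * II C X x y (hh (sys k x a) * cl (τ.dvL A G 0 p))) :
    -(β + 2 * II C X x y (hh (sys k x a) * pb ι (hh A)) ^ 2 /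
      JJ C L (hh (sys k x a) * hh (sys k x a) * pb ι (hh A) * pb ι (hh A))) ≤
      II C X x (y * y) 1 := by
  have h4 : td k L = 4 := by rw [ht.td_eq, h3]
  have r4 : rn k (rt (sys k x a)) = td k L :=
    le_antisymm (rn_le_td _) (h4 ▸ rn_sysG hX hx hd ha)
  have d0 : τ.d ≠ 0 := (((τ.fdeg_hh hC ht).pos_iff hC ht.td_eq).2
    (le_antisymm (rn_le_td _) (r4 ▸ rn_mono Set.subset_union_right))).ne'
  have hA' : hh A ∈ Dat A := hh_dat dvd_rfl
  have sy := fun {Λ'} (h : Λ' ∈ Dat A) => QQ_symm hC h3 M.gen h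
  obtain ⟨q, s, hq, cv, hs⟩ := exists_appG hC h3 ht hX hx hd ha M hy St hG hL hB hΞ hg hM hl
  have fq := fun p p' : MM => tendsto_nhds_unique (hq p p')
    (lim_q hC h3 ht M hG hL hB (fun _ h => (hg h).1) (hM _ p.2) (hM _ p'.2))
  let V' : ℕ → DD k F := fun i => v - τ.g1L A G (s i) 0
  have t1 : ∀ b ∈ B, Tendsto (fun i => QQ C A (hh A) (V' i) (b 0)) atTop (𝓝 0) := fun b h => by
    have := (hs ⟨_, hb b h⟩).const_sub (QQ C A (hh A) v (b 0))
    simp only [fq, y_A hC h3 M St hG] at this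
    simpa [V', sy hA' (b 0)] using this
  let ev : (τ.Par →ₗ[ℚ] ℕ → DD k F) → MM →ₗ[ℚ] DD k F := fun T =>
    LinearMap.proj 0 ∘ₗ T ∘ₗ MM.subtype
  have n1 : ∀ {Λ'}, Λ' ∈ Dat A → ∀ H, Tendsto (fun i => QQ C A Λ' (V' i) H) atTop (𝓝 0) :=
    fun h H => null_seq hC h3 M.gen (by simpa only [sy hA' (-mD A)] using t1 _ hA) (by
      obtain ⟨b, b1, b2⟩ := hv
      have t0 := t1 _ b1
      simp only [sy hA' _ (b 0), ← b2, sy hA' v] at t0
      have := t0.sub (cv.diag (ρ := fun i => QQ C A (hh A) (V' i) ∘ₗ ev (τ.g1L A G))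
        fun p => t1 _ (hB.g1 (hM _ p.2)))
      simp only [sub_zero, LinearMap.comp_apply, ← map_sub] at this
      exact this) h H
  have n2 : ∀ {Λ'}, Λ' ∈ Dat A → ∀ T : MM →ₗ[ℚ] DD k F,
      Tendsto (fun i => QQ C A Λ' (V' i) (T (s i))) atTop (𝓝 0) := fun h T =>
    cv.diag (ρ := fun i => QQ C A _ (V' i) ∘ₗ T) fun p => n1 h _
  have t2 : Tendsto (fun i => q (s i) l) atTop
      (𝓝 (II C X x y (hh (sys k x a) * pb ι (hh A)))) := by
    simpa only [hl, mul_comm (pb ι (hh A))] using hs l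
  have nn : ∀ {Λ'}, Λ' ∈ Dat A → Tendsto (fun i => QQ C A Λ' (V' i) (V' i)) atTop (𝓝 0) :=
    fun h => by
    have := (n1 h v).sub (n2 h (ev (τ.g1L A G)))
    simp only [sub_zero, ← map_sub] at this
    exact this
  have t4 : Tendsto (fun i => (II C X x y (hh (sys k x a) * pb ι (cl (V' i))) : ℝ)) atTop
      (𝓝 0) := by
    obtain ⟨c, -, hc⟩ := e_boundG hC h3 ht hX hx hd ha M hΞ (R := ℚ × MM) (pD ι ∘ₗ
      ((LinearMap.fst ℚ _ _).smulRight v - ev (τ.g1L A G) ∘ₗ LinearMap.snd ℚ _ _)) hy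
    have hB' : Cn τ A G Lt (GS hC h3 M.gen Ξ) := ⟨hg hB.g0, hg hB.h0, fun S => hg (hB.dl S),
      fun S => hg (hB.lt S), fun S c h => hg (hB.gc S c h)⟩
    have t := (((((n1 hA' (τ.g1L A G l 0)).pow 2).const_mul 2).div_const
      (JJ C L (hh (sys k x a) * hh (sys k x a) * pb ι (hh A) * pb ι (hh A)) : ℚ)).sub
      ((((nn M.g0).const_mul (2 * τ.d : ℝ)).neg.add ((nn M.ka).const_mul (τ.d ^ 2 : ℝ))).sub
        (tendsto_finsetSum Finset.univ fun S _ =>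
          (nn (M.dl S)).const_mul (τ.nS S ^ 2 : ℝ)))).const_mul (c : ℝ)
    have t' := squeeze_zero (fun i => sq_nonneg
      (II C X x y (hh (sys k x a) * pb ι (cl (V' i))) : ℝ)) (fun i => ?_) (by simpa using t)
    · rw [tendsto_zero_iff_abs_tendsto_zero]
      simpa [Function.comp_def, Real.sqrt_sq_eq_abs] using t'.sqrt
    have hb : ((fun _ => v) - τ.g1L A G (s i)) ∈ GS hC h3 M.gen Ξ :=
      sub_mem ⟨St.good, fun _ _ _ => rfl⟩ (hg (hB.g1 (hM _ (s i).2)))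
    have l1 := lim_q hC h3 ht M hG hL hB' (fun _ h => h.1) (p := l)
      (p' := (0, (fun _ => v) - τ.g1L A G (s i), 0, 0)) (hg (hM _ l.2)) hb
    have l2 := lim_z hC h3 ht M hG hL hB' (fun _ h => h.1)
      (p := (0, (fun _ => v) - τ.g1L A G (s i), 0, 0)) hb
    refine le_of_le_of_eq (ge_of_tendsto' (((((l1.pow 2).const_mul 2).div_const
      (JJ C L (hh (sys k x a) * hh (sys k x a) * pb ι (hh A) * pb ι (hh A)) : ℚ)).sub
        l2).const_mul (c : ℝ)) fun n => ?_) ?_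
    · have := hc (1, s i) _ fun ν h0 => (dv_off hC h3 M hB' le_rfl
        (p := (0, (fun _ => v) - τ.g1L A G (s i), 0, 0)) hb n ν h0).trans (by
          simp [dvL, dv, ev])
      simp only [nrm, LinearMap.comp_apply, LinearMap.sub_apply, LinearMap.smulRight_apply,
        LinearMap.fst_apply, LinearMap.snd_apply, one_smul] at this
      rw [hl, pb_cl, mul_right_comm _ (pb ι _) (hh _)]
      exact_mod_cast this
    · have e1 : τ.g1L A G (0, (fun _ => v) - τ.g1L A G (s i), 0, 0) 0 = τ.d • V' i := by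
        simp [g1L_apply _ _ _ (0, _), g1, ee, V']
      have e2 : ∀ S, τ.gSL A G Lt m S (0, (fun _ => v) - τ.g1L A G (s i), 0, 0) 0 =
          -(τ.nS S • V' i) := fun S => by simp [gSL_apply _ _ _ _ _ _ (0, _), gS, ee, V']
      have e3 : ((fun _ => v) - τ.g1L A G (s i) : ℕ → DD k F) 0 = V' i := rfl
      simp only [e1, e2, e3, Pi.zero_apply, Rat.cast_zero, zero_mul, mul_zero, neg_zero, zero_add,
        add_zero, Finset.sum_const_zero, sub_zero, map_smul, map_neg, LinearMap.smul_apply,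
        LinearMap.neg_apply, neg_neg, Rat.smul_def, sq, mul_assoc, mul_neg]
  have t3 : ∀ S, ∀ c ∈ prs A (τ.dl S), Tendsto (fun i =>
      QQ C A (hh A) (τ.gSL A G Lt m S (s i) 0) (G 0 S c) + (s i : τ.Par).2.2.2 S c *
        (c.vq (τ.dl S) * JJ C c.κ (c.rs (Λ S) * c.rs (hh A)) : ℚ) +
        (c.vq (τ.dl S) * JJ C c.κ (W S c * c.rs (hh A)) : ℚ)) atTop (𝓝 0) := fun S c hc => by
    obtain ⟨e, e0, e1, e2⟩ := he S c hc
    have sg : ∀ f : ∀ _ : τ.Cl, Dv k F → ℝ,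
        ∑ S', ∑ c' ∈ prs A (τ.dl S'), (e S' c' : ℝ) * f S' c' = f S c := fun f => by
      rw [Finset.sum_eq_single S (fun S' _ h => Finset.sum_eq_zero fun c' _ => by
        rw [e2 S' c' fun h' => h h'.1, Rat.cast_zero, zero_mul]) (by simp),
        Finset.sum_eq_single_of_mem c hc fun c' _ h => by
          rw [e2 S c' fun h' => h h'.2, Rat.cast_zero, zero_mul], e1, Rat.cast_one, one_mul]
    have := (hs ⟨_, e0⟩).const_sub ((c.vq (τ.dl S) * JJ C c.κ (W S c * c.rs (hh A)) : ℚ) : ℝ)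
    simp only [fq, y_A hC h3 M St hG, Pi.zero_apply, Rat.cast_zero, zero_mul, mul_zero, map_zero,
      LinearMap.zero_apply, zero_add, add_zero, neg_zero, zero_sub, Rat.cast_sum, Rat.cast_mul _ (_ * _),
      mul_comm _ (e _ _ : ℝ), mul_assoc, ← mul_add, sg, sub_self, sub_neg_eq_add] at this
    simpa only [add_comm] using this
  have key := fun i => est hC h3 M St hG ht hL d0 (s i) (V' i) rfl (β + 2 * q (s i) l ^ 2 /
    (JJ C L (hh (sys k x a) * hh (sys k x a) * pb ι (hh A) * pb ι (hh A)) : ℚ) +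
    2 * II C X x y (hh (sys k x a) * cl (τ.dvL A G 0 (s i))))
    (le_of_tendsto_of_tendsto' (lim_z hC h3 ht M hG hL hB (fun _ h => (hg h).1) (hM _ (s i).2))
      ((((((hq (s i) l).pow 2).const_mul 2).div_const _).const_add _).add_const _) fun n => by
        have := hβ (s i) n
        rw [hl, mul_right_comm _ (cl _) (hh _), mul_right_comm _ (pb ι _) (hh _)]
        exact_mod_cast this)
  simp only [add_sub_cancel_right] at key
  have lim := (((((((n1 M.g0 v).add t4).const_mul (2 / τ.d : ℝ)).add ((n2 M.g0 (ev (LinearMap.fst ℚ _ _ ∘ₗ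
    LinearMap.snd ℚ _ _))).const_mul 2)).sub (n1 M.ka v)).sub (n2 M.ka (ev (τ.g1L A G)))).sub
    ((((t2.pow 2).const_mul 2).div_const (JJ C L (hh (sys k x a) * hh (sys k x a) * pb ι (hh A) *
      pb ι (hh A)) : ℚ)).const_add (β : ℝ))).sub (tendsto_finsetSum Finset.univ fun S _ =>
    (((n2 (M.dl S) (ev (τ.gSL A G Lt m S))).const_mul (2 * (τ.nS S / τ.d) : ℝ)).sub
      (((n1 (M.dl S) v).sub (n2 (M.dl S) (ev (τ.g1L A G)))).const_mul ((τ.nS S / τ.d) ^ 2 : ℝ))).add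
    (tendsto_finsetSum (prs A (τ.dl S)) fun c hc =>
      ((n2 (M.lam S) ((LinearMap.proj c ∘ₗ LinearMap.proj S ∘ₗ LinearMap.snd ℚ _ _ ∘ₗ
        LinearMap.snd ℚ _ _ ∘ₗ LinearMap.snd ℚ _ _ ∘ₗ MM.subtype).smulRight (G 0 S c))).const_mul
        (2 * (τ.nS S / τ.d) : ℝ)).add ((((t3 S c hc).sub ((n1 hA' (G 0 S c)).const_mul
          (τ.nS S / τ.d : ℝ))).pow 2).div_const
          ((c.vq (τ.dl S) * JJ C c.κ (c.rs (hh A * hh A)) : ℚ) : ℝ))))
  have := le_of_tendsto' lim key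
  refine (Rat.cast_le (K := ℝ)).1 ?_
  simpa using this

end Tree

end Pool.Agent.Work.MP_ffcd14_ag.Uni
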