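import Pool.Agent.Work.MP_ffcd14_ag.Sub.U2
import Pool.Agent.Work.MP_ffcd14_ag.Sub.DefsS

/-! # Semi-positivity on a uniruled subvariety of dimension four -/

open MvPolynomial Filter Topology

namespace Pool.Agent.Work.MP_ffcd14_ag.Uni

universe u v w

section
variable {k : Type u} [Field k] {P : Amb}

theorem T2_polyG {A : Set (P.Pt k)} {d : ℕ} (h : UniS A d) : ∃ (E : Type u) (_ : Field E) (_ : Algebra k E)
    (_ : IsAlgClosed E) (p : P.V → Polynomial E), Algebra.trdeg k E + 1 = d ∧ T2P A p ∧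
      ∀ r i, ∃ s, (p ⟨i, s⟩).eval r ≠ 0 := by
  classical
  obtain ⟨F, _, _, v, hd, hv⟩ := h
  obtain ⟨b, hb⟩ := IsLocalization.exist_integer_multiples_of_finite
    (nonZeroDivisors (Polynomial F)) v
  choose p hp using hb
  have h1 : T2P A p := by
    rw [← T2P_map (IsScalarTower.toAlgHom k _ (RatFunc F)) (IsFractionRing.injective _ _)]
    simp only [IsScalarTower.toAlgHom_apply, hp, Algebra.smul_def]
    exact (T2P_scale (μ := fun _ => algebraMap _ (RatFunc F) b.1) fun _ =>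
      RatFunc.algebraMap_ne_zero (nonZeroDivisors.ne_zero b.2)).2 hv
  rw [← T2P_map (Polynomial.mapAlgHom (IsScalarTower.toAlgHom k F (AlgebraicClosure F)))
    (Polynomial.map_injective _ (RingHom.injective _))] at h1
  generalize (fun s => Polynomial.mapAlgHom (IsScalarTower.toAlgHom k F (AlgebraicClosure F))
    (p s)) = q at h1
  have := fun i => Fintype.ofFinite (P.σ i)
  have h2 : ∀ i, (Finset.univ : Finset (P.σ i)).Nonempty := fun i =>
    (h1.1 i).imp fun s _ => Finset.mem_univ s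
  choose g hg hg' using fun i => Finset.extract_gcd (fun s => q ⟨i, s⟩) (h2 i)
  refine ⟨AlgebraicClosure F, inferInstance, inferInstance, inferInstance, fun s => g s.1 s.2,
    ?_, ?_, fun r i => ?_⟩
  · rw [← trdeg_add_eq k F, trdeg_eq_zero (R := F), add_zero, hd]
  · rw [← T2P_scale (μ := fun i => Finset.univ.gcd fun s => q ⟨i, s⟩) fun i e => ?_]
    · convert h1 using 2 with s
      exact (hg s.1 s.2 (Finset.mem_univ _)).symm
    · obtain ⟨s, hs⟩ := h1.1 i
      exact hs (Finset.gcd_eq_zero_iff.1 e s (Finset.mem_univ _))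
  · by_contra hc
    push Not at hc
    have h3 := Finset.dvd_gcd (s := Finset.univ) fun s _ => Polynomial.dvd_iff_isRoot.2 (hc s)
    rw [hg'] at h3
    exact Polynomial.not_isUnit_X_sub_C r (isUnit_of_dvd_one h3)

variable [IsAlgClosed k]

theorem setupG {Z : Sub k P} (h : UniS (Z : Set (P.Pt k)) 4)
    (hd : sdim Z = 4) (a : P.ι →₀ ℕ) :
    ∃ (F L : Type u) (_ : Field F) (_ : Field L) (_ : Algebra k F) (_ : Algebra k L) (_ : Fg k F)
      (ι : F →ₐ[k] L) (t : L) (x : P.V → L), td k F = 3 ∧ Simp ι t ∧ IsGen (Z : Set (P.Pt k)) x ∧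
        Nonempty (Tree ι t (sys k x a)) := by
  classical
  obtain ⟨E, _, _, _, p, hE, hp, hco⟩ := T2_polyG h
  obtain ⟨J, hJ⟩ : ∃ J : Set (P.V →₀ ℕ), ∀ d, d ∈ J ↔
      Finsupp.weight (fun s : P.V => Finsupp.single s.1 1) d = a ∧
        aeval p (monomial d (1 : k)) ≠ 0 := ⟨Set.ofPred _, fun _ => Iff.rfl⟩
  have hJf : J.Finite := (T2_fin a).subset fun d hd => ((hJ d).1 hd).1
  have := hJf.to_subtype
  obtain ⟨d, hdeg⟩ := (hJf.image fun j => (aeval p (monomial j (1 : k))).natDegree).bddAbove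
  obtain ⟨F, S, hF, hA, hS, hS'⟩ := T2_field (k := k) (A := {0} ∪ (⋃ s, ((p s).coeffs : Set E)) ∪
    ⋃ j : J, insert (aeval p (monomial j.1 (1 : k))).leadingCoeff
      {r | r ∈ (aeval p (monomial j.1 (1 : k))).roots})
    (((Set.finite_singleton _).union (Set.finite_iUnion fun s => Finset.finite_toSet _)).union
      (Set.finite_iUnion fun j => (Multiset.finite_toSet _).insert _)) d.factorial_pos
  have hq : ∀ s, ∃ q : Polynomial F, Polynomial.mapAlgHom F.val q = p s := fun s =>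
    (Polynomial.mem_lifts (f := (F.val : F →+* E)) _).1 <|
      (Polynomial.lifts_iff_coeffs_subset_range _).2 fun c hc =>
        ⟨⟨c, hA c (Or.inl (Or.inr (Set.mem_iUnion.2 ⟨s, hc⟩)))⟩, rfl⟩
  choose q hq using hq
  have hinj : Function.Injective (Polynomial.mapAlgHom F.val) :=
    Polynomial.map_injective _ (RingHom.injective _)
  have hQ : ∀ f : MvPolynomial P.V k, (aeval q f).map (F.val : F →+* E) = aeval p f := fun f => by
    rw [← funext hq, ← comp_aeval_apply]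
    rfl
  obtain ⟨θ, hθ⟩ : ∃ θ : Polynomial F →ₐ[k] RatFunc F, θ = IsScalarTower.toAlgHom k _ _ := ⟨_, rfl⟩
  have hθi : Function.Injective θ := hθ ▸ IsFractionRing.injective _ _
  have hx : T2P (Z : Set (P.Pt k)) fun s => θ (q s) := by
    rw [T2P_map θ hθi, ← T2P_map _ hinj, funext hq]
    exact hp
  have hgen : IsGen (Z : Set (P.Pt k)) fun s => θ (q s) := ⟨hx.1, hx.2⟩
  have ht := simp_ratFunc (k := k) (F := F)
  have := ht.fg
  have h0 : ∀ j : J, aeval q (monomial j.1 (1 : k)) ≠ 0 := fun j e =>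
    ((hJ _).1 j.2).2 (by rw [← hQ, e, Polynomial.map_zero])
  have hsp : ∀ j : J, (aeval q (monomial j.1 (1 : k))).Splits := fun j =>
    Polynomial.Splits.of_splits_map (F.val : F →+* E) (IsAlgClosed.splits _) fun r hr =>
      ⟨⟨r, hA r (Or.inr (Set.mem_iUnion.2 ⟨j, Or.inr (hQ _ ▸ hr)⟩))⟩, rfl⟩
  have hroot : ∀ j : J, ∀ r ∈ (aeval q (monomial j.1 (1 : k))).roots,
      r.1 ∈ (aeval p (monomial j.1 (1 : k))).roots := fun j r hr => by
    rw [← hQ, (hsp j).roots_map]
    exact Multiset.mem_map_of_mem _ hr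
  have hS0 : (0 : F) ∈ S := (hS 0).2 (Or.inl (Or.inl rfl))
  have hR : ∀ j : J, ∀ r ∈ (aeval q (monomial j.1 (1 : k))).roots, r ∈ S := fun j r hr =>
    (hS r).2 (Or.inr (Set.mem_iUnion.2 ⟨j, Or.inr (hroot j r hr)⟩))
  have hco' : ∀ r : F, ∃ j : J, r ∉ (aeval q (monomial j.1 (1 : k))).roots := fun r => by
    obtain ⟨j, h1, h2⟩ := T2_mono (k := k) (v := fun s => (p s).eval r.1) (hco r.1) a
    have h3 : (aeval p (monomial j (1 : k))).eval r.1 ≠ 0 := by
      have := comp_aeval_apply p ((Polynomial.aeval r.1).restrictScalars k) (monomial j (1 : k))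
      simp only [AlgHom.restrictScalars_apply, Polynomial.coe_aeval_eq_eval] at this
      rwa [this]
    have h4 := (hJ j).2 ⟨h1, fun e => h3 (by rw [e, Polynomial.eval_zero])⟩
    exact ⟨⟨j, h4⟩, fun hr => h3 (Polynomial.isRoot_of_mem_roots (hroot ⟨j, h4⟩ r hr))⟩
  refine ⟨F, RatFunc F, inferInstance, inferInstance, inferInstance, inferInstance, hF, _, _, _,
    le_antisymm ?_ ?_, ht, hgen, ?_⟩
  · have h1 := trdeg_le_of_injective F.val (RingHom.injective _)
    rw [← td_eq_trdeg] at h1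
    have h2 := (add_le_add_left h1 1).trans_eq hE
    norm_cast at h2
    omega
  · have h1 := rn_le_td (k := k) (rat fun s => θ (q s))
    rw [rn_rat hgen, hd, ht.td_eq] at h1
    omega
  · convert T2_tree ht (fun j : J => (aeval q (monomial j.1 (1 : k))).leadingCoeff)
      (fun j => Polynomial.leadingCoeff_ne_zero.2 (h0 j))
      (fun j => (aeval q (monomial j.1 (1 : k))).roots) (d := d) (fun j => ?_) ⟨0, hS0⟩ hR hco'
      (fun j => ?_) fun r hr j r' hr' => hS' r hr r' (hR j r' hr')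
    · have h1 : ∀ j : J, IsScalarTower.toAlgHom k F (RatFunc F)
          (aeval q (monomial j.1 (1 : k))).leadingCoeff *
          ((aeval q (monomial j.1 (1 : k))).roots.map fun r =>
            RatFunc.X - IsScalarTower.toAlgHom k F (RatFunc F) r).prod =
          aeval (fun s => θ (q s)) (monomial j.1 (1 : k)) := fun j => by
        rw [← comp_aeval_apply]
        conv_rhs => rw [(hsp j).eq_prod_roots]
        simp [hθ, map_multiset_prod, Function.comp_def]
      simp only [h1]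
      refine T2_sys hgen.onS.nz fun j => ?_
      rw [hJ, ← comp_aeval_apply, map_ne_zero_iff θ hθi, ← hQ, Polynomial.map_ne_zero_iff]
      exact RingHom.injective _
    · refine (Polynomial.card_roots' _).trans (le_trans (le_of_eq ?_) (hdeg ⟨j.1, j.2, rfl⟩))
      simp only [← hQ, Polynomial.natDegree_map]
    · simpa using hS' _ ((hS (aeval q (monomial j.1 (1 : k))).leadingCoeff).2
        (Or.inr (Set.mem_iUnion.2 ⟨j, Or.inl (by rw [← hQ, Polynomial.leadingCoeff_map]; rfl)⟩))) 0 hS0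

end

variable {k F L : Type u} [Field k] [Field F] [Field L] [Algebra k F] [Algebra k L]
  {K : Type v} [Field K] [CharZero K] {C : NT.{u, v, w} k K} {P : Amb}
  [IsAlgClosed k] (hC : C.Chow)
include hC

theorem tree_sqG [Fg k F] [Fg k L] (h3 : td k F = 3) {ι : F →ₐ[k] L} {t : L} (ht : Simp ι t)
    {X : Var k P} (hX : IsIrreducible X.pts) {x : P.V → L} (hx : OnS X.pts x) (hd : rn k (rat x) = 4)
    {a : P.ι →₀ ℕ} (ha : ∀ i, 0 < a i) (τ : Tree ι t (sys k x a)) {y z : EE C X}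
    (hy : y ∈ AA C X 2) (hz : z ∈ AA C X 2) (hp : ∀ r, II C X x y (hh (sys k x a) * r) = 0) :
    ∃ b : ℚ, ∀ r : ℚ, b ≤ II C X x ((z + r • y) * (z + r • y)) 1 := by
  classical
  obtain ⟨A, Vη, Λ, m, M⟩ := τ.exists_mod ht
  obtain ⟨v, W, St⟩ := exists_star hC hX hy h3 ht hx ha τ M
  obtain ⟨v', W', St'⟩ := exists_star hC hX hz h3 ht hx ha τ M
  choose Lt hL using fun S => Dat_le_N1 A (M.lam S)
  obtain ⟨G, Ξ, hΞ, hG, hs⟩ := τ.exists_seq hC h3 M.gen M.dl
  let s : Set (ℕ → DD k F) := (fun D _ => D) '' ({v, v', -mD A, τ.g0, τ.h0} ∪ Set.range τ.dl ∪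
    Set.range Lt) ∪ ⋃ S, (fun c n => G n S c) '' prs A (τ.dl S)
  have fs : s.Finite := (((Set.toFinite _).union (Set.finite_range _)).union
    (Set.finite_range _)).image _ |>.union (Set.finite_iUnion fun S => (Finset.finite_toSet _).image _)
  have cs : ∀ D ∈ ({v, v', -mD A, τ.g0, τ.h0} ∪ Set.range τ.dl ∪ Set.range Lt : Set (DD k F)),
      (fun _ => D) ∈ Submodule.span ℚ s := fun D h => Submodule.subset_span (Or.inl ⟨D, h, rfl⟩)
  have hB : Tree.Cn τ A G Lt (Submodule.span ℚ s) := ⟨cs _ (by simp), cs _ (by simp),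
    fun S => cs _ (by simp), fun S => cs _ (by simp), fun S c hc =>
      Submodule.subset_span (Or.inr (Set.mem_iUnion.2 ⟨S, c, hc, rfl⟩))⟩
  have hg : Submodule.span ℚ s ≤ GS hC h3 M.gen Ξ := Submodule.span_le.2 (by
    have gd := fun {D} h => good_dat hC h3 M.gen (G := D) h
    rintro _ (⟨D, h, rfl⟩ | h)
    · refine ⟨?_, fun _ _ _ => rfl⟩
      rcases h with ((rfl | rfl | rfl | rfl | rfl) | ⟨S, rfl⟩) | ⟨S, rfl⟩
      · exact St.good
      · exact St'.good
      · exact gd (by rw [map_neg, cl_mD, neg_neg]; exact hh_dat dvd_rfl)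
      · exact gd M.g0
      · exact gd (neg_mem_iff.1 M.ka)
      · exact gd (M.dl S)
      · exact gd (hL S ▸ M.lam S)
    · obtain ⟨S, c, hc, rfl⟩ := Set.mem_iUnion.1 h
      exact hs S c hc)
  let e : τ.Cl → Dv k F → τ.Cl → Dv k F → ℚ := fun S c S' c' => if S' = S ∧ c' = c then 1 else 0
  let s' : Set (τ.Cl → Dv k F → ℚ) := ⋃ S, e S '' prs A (τ.dl S)
  let MM : Submodule ℚ τ.Par := (⊤ : Submodule ℚ ℚ).prod ((Submodule.span ℚ s).prod
    ((⊤ : Submodule ℚ (τ.Cl → ℚ)).prod (Submodule.span ℚ s')))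
  have : FiniteDimensional ℚ MM := Module.Finite.iff_fg.2 (Module.Finite.fg_top.prod
    ((Submodule.fg_span fs).prod (Module.Finite.fg_top.prod (Submodule.fg_span
      (Set.finite_iUnion fun S => (Finset.finite_toSet _).image _)))))
  obtain ⟨β, hβ⟩ := Tree.z_boundG hC h3 ht hX hx hd ha M hB hΞ hg (MM := MM) (fun p h => h.2.1) hz
  refine ⟨-(β + 2 * II C X x z (hh (sys k x a) * pb ι (hh A)) ^ 2 /
    JJ C L (hh (sys k x a) * hh (sys k x a) * pb ι (hh A) * pb ι (hh A))), fun r => ?_⟩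
  have hr := add_mem hz (Submodule.smul_mem _ r hy)
  have er : ∀ g, II C X x (z + r • y) (hh (sys k x a) * g) = II C X x z (hh (sys k x a) * g) :=
    fun g => by rw [map_add, map_smul, LinearMap.add_apply, LinearMap.smul_apply, hp, smul_zero,
      add_zero]
  obtain ⟨v'', W'', St''⟩ := exists_star hC hX hr h3 ht hx ha τ M
  have := Tree.coreG hC h3 ht hX hx hd ha M hr St'' hG hL hB hΞ hg (MM := MM) (fun p h => h.2.1)
    (l := ⟨(τ.d, -fun _ => τ.g0, fun S => -τ.nS S, 0), trivial, neg_mem hB.g0, trivial, zero_mem _⟩)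
    (fun n => by
      rw [τ.hh_eq]
      simp [Tree.dvL, Tree.cl_dv, sub_eq_add_neg, add_comm])
    ⟨(fun _ => v') + r • fun _ => v, add_mem (cs _ (by simp))
      (Submodule.smul_mem _ _ (cs _ (by simp))), LinearMap.ext fun H => by
        have hA : hh A ∈ Dat A := hh_dat dvd_rfl
        simp only [Pi.add_apply, Pi.smul_apply, map_add, map_smul, LinearMap.add_apply,
          LinearMap.smul_apply, ← Tree.y_pb hC h3 M St hA, ← Tree.y_pb hC h3 M St' hA,
          ← Tree.y_pb hC h3 M St'' hA, Rat.smul_def, smul_eq_mul, Rat.cast_add, Rat.cast_mul]⟩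
    (cs _ (by simp))
    (fun b h => ⟨trivial, h, trivial, zero_mem _⟩) (fun S c hc => ⟨e S c, ⟨trivial, zero_mem _,
      trivial, Submodule.subset_span (Set.mem_iUnion.2 ⟨S, c, hc, rfl⟩)⟩, if_pos ⟨rfl, rfl⟩,
      fun _ _ h => if_neg h⟩) (β := β) (by simpa only [er] using hβ)
  rwa [er] at this

omit [Field F] [Algebra k F] in
/-- A class which is orthogonal to the subvarieties of `Z` is orthogonal to everything over `Z`. -/
theorem II_prim [Fg k L] {X : Var k P} (hX : IsIrreducible X.pts) {x : P.V → L} {Z : Sub k P}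
    (hZ : (Z : Set (P.Pt k)) ⊆ X.pts) (hx : IsGen (Z : Set (P.Pt k)) x)
    {c : ℕ} {y : EE C X} (hy : y ∈ AA C X c)
    (h : ∀ T ≤ Z, sdim T = c → nm C X T y = 0) (r : N k L) : II C X x y r = 0 := by
  obtain ⟨Q, u, Z', p, hZ', hs, hg, rfl⟩ := II_ex X (hx.onS.mono hZ) r
  refine (II_eval hC (Prj.one X Q) hZ' hs hg y p).trans ?_
  rw [nm_apply, mul_comm (pl C _ y), ← mul_assoc]
  have e : (Prj.one X Q).img Z' = Z := ((Prj.one X Q).toCrd.isGen_img hZ').unique hx
  refine num2_CS_map _ (tau C _ ∘ₗ LinearMap.mulRight ℚ (pl C (Prj.one X Q) y)) ⊥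
    (fun T hT hp => ?_) (cy_mul_HA hC.cyc _ hs (I0f_HA _ p))
  obtain ⟨n, -, h5⟩ := n_push hC.cyc (Prj.one X Q) hT
  change nm C _ T (pl C _ y) ∈ _
  rw [h5, Submodule.mem_bot]
  by_cases h6 : sdim ((Prj.one X Q).img T) = c
  · rw [h _ (e ▸ Crd.img_mono _ hp) h6, mul_zero]
  · rw [nm_AA C X hX _ hy (Ne.symm h6), mul_zero]

/-- The squares of `z + r y` on `Z` are bounded below for a primitive class `y`. -/
theorem uni_bdG {X : Var k P} (hX : IsIrreducible X.pts) {Z : Sub k P}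
    (hZ : (Z : Set (P.Pt k)) ⊆ X.pts) (h : UniS (Z : Set (P.Pt k)) 4) (hd : sdim Z = 4)
    {a : P.ι →₀ ℕ} (ha : ∀ i, 0 < a i) {y z : EE C X} (hy : y ∈ AA C X 2) (hz : z ∈ AA C X 2)
    (hN : ∀ T ≤ Z, sdim T = 3 → nm C X T (y * ln C X a) = 0) : ∃ b : ℚ, ∀ r : ℚ,
      b ≤ 2 * r * nm C X Z (y * z) + r ^ 2 * nm C X Z (y * y) := by
  obtain ⟨F, L, _, _, _, _, _, ι, t, x, h3, ht, hx, ⟨τ⟩⟩ := setupG h hd a
  have := ht.fg
  have h4 : sdim Z = td k L := by rw [ht.td_eq, h3, hd]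
  obtain ⟨b, h1⟩ := tree_sqG hC h3 ht hX (hx.onS.mono hZ) (by rw [rn_rat hx, hd]) ha τ hy hz
    fun r => by
      rw [← II_ln hC X hx.ne]
      exact II_prim hC hX hZ hx (c := 3) (AA_mul C X hy (HS_le_AA C X (ln_mem_HS C X a))) hN r
  obtain ⟨n, hn, e⟩ := II_model hC X hx h4
  refine ⟨b / n - nm C X Z (z * z), fun r => ?_⟩
  have := h1 r
  have e1 := fun ω => e ω 1
  simp only [map_one, mul_one] at e1
  rw [e1, ← div_le_iff₀' (by exact_mod_cast hn)] at this
  simp only [add_mul, mul_add, smul_mul_assoc, mul_smul_comm, map_add, map_smul, smul_eq_mul,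
    mul_comm z y] at this
  linarith

omit hC in
theorem quad_bd {p q b : ℚ} (h : ∀ r : ℚ, b ≤ 2 * r * p + r ^ 2 * q) :
    0 ≤ q ∧ (q = 0 → p = 0) := by
  refine ⟨not_lt.1 fun h1 => ?_, fun h0 => not_not.1 fun hne => ?_⟩
  · set r := (|b| + 1) / -q + 1 with hr
    have h2 : 0 < (|b| + 1) / -q := div_pos (by positivity) (by linarith)
    have h3 := div_mul_cancel₀ (|b| + 1) (by linarith : -q ≠ 0)
    have a1 := h r
    have a2 := h (-r)
    have a3 : r * -q = |b| + 1 + -q := by rw [hr, add_mul, h3, one_mul]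
    nlinarith [neg_abs_le b, abs_nonneg b, mul_pos h2 (neg_pos.2 h1)]
  · have := h ((b - 1) / (2 * p))
    rw [h0, mul_zero, add_zero, mul_right_comm, mul_div_cancel₀ _ (mul_ne_zero two_ne_zero hne)]
      at this
    linarith

/-- Semi-positivity on a uniruled subvariety of dimension four. -/
theorem uni_posG {X : Var k P} (hX : IsIrreducible X.pts) {Z : Sub k P}
    (hZ : (Z : Set (P.Pt k)) ⊆ X.pts) (h : UniS (Z : Set (P.Pt k)) 4) (hd : sdim Z = 4)
    {a : P.ι →₀ ℕ} (ha : ∀ i, 0 < a i) {y : EE C X} (hy : y ∈ AA C X 2)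
    (hN : ∀ T ≤ Z, sdim T = 3 → nm C X T (y * ln C X a) = 0) :
    0 ≤ nm C X Z (y * y) ∧ (nm C X Z (y * y) = 0 → ∀ z ∈ AA C X 2, nm C X Z (y * z) = 0) :=
  ⟨(quad_bd (uni_bdG hC hX hZ h hd ha hy hy hN).choose_spec).1, fun h0 _ hz =>
    (quad_bd (uni_bdG hC hX hZ h hd ha hy hz hN).choose_spec).2 h0⟩

end Pool.Agent.Work.MP_ffcd14_ag.Uni
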